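import Pool.Agent.Helper36.LX.UBD
import Pool.Agent.Helper13.LX.UNET
import Pool.Agent.Helper14.LX.USTEP
import Pool.Agent.Helper85.LX.UFIN

/-!
# LX, part 2: `N_d(t) ≤ (C d / (1 - t)) ^ ((d + 1) / 2)` with an absolute constant `C`
-/

namespace H11ST
namespace LX

/-- the upper bound with its dependence on the dimension -/
theorem upp : ∃ C : ℝ, 0 < C ∧ ∀ d : ℕ, 2 ≤ d → ∀ t : ℝ, 0 < t → t < 1 → ∃ m : ℕ,
    Nloc d t = m ∧ (m : ℝ) ≤ (C * d / (1 - t)) ^ (((d : ℝ) + 1) / 2) :=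
  ufin (ubd (ustep unet))

end LX
end H11ST
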