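import Pool.Agent.Helper94.LG.Sheet
open MeasureTheory Metric Set Filter Topology
open scoped ENNReal NNReal

/-!
# LX: `N_d(t) ≥ exp (c d)` for all `d ≥ 2`, `t ≥ 1 / 2`

As LG (Helper94/LG/Sheet.lean), with `n` almost orthonormal unit vectors `p i` of `E d` (class `NO`,
`|⟪p i, p j⟫| ≤ e0`) as terminals, `n ≥ exp (c d)`. Coordinates of a point `y`:
`co p y k = max (⟪y, p k⟫ - e0) 0`. For `v = ∑ lam k • p k` in the hull: `co p v k ≤ lam k` and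
`lam k ≤ co p v k + 2 e0`, so `∑ co ≤ 1`, and `‖v‖ ^ 2 ≤ ∑ co ^ 2 + 3 e0`.
-/

namespace H11ST
namespace LX
open LG

variable {d n : ℕ}

/-- the constant of almost orthogonality -/
noncomputable def e0 : ℝ := 1 / 1000000

/-- almost orthonormal terminals -/
structure NO (p : Fin n → E d) : Prop where
  nrm : ∀ i, ‖p i‖ = 1
  orth : ∀ i j, i ≠ j → |inner ℝ (p i) (p j)| ≤ e0

/-- the union of the edges -/
def carrier (p : Fin n → E d) : BT (Fin n) (E d) → Set (E d)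
  | .leaf i => {p i}
  | .node z l r => segment ℝ z (l.pos p) ∪ carrier p l ∪ (segment ℝ z (r.pos p) ∪ carrier p r)

/-- sum over all edges, with the edge from the terminal `p i0` to the root -/
noncomputable def tot (p : Fin n → E d) (i0 : Fin n) (f : E d → E d → ℝ)
    (t : BT (Fin n) (E d)) : ℝ :=
  f (p i0) (t.pos p) + t.esum p f

/-- the network as a set -/
def tset (p : Fin n → E d) (i0 : Fin n) (t : BT (Fin n) (E d)) : Set (E d) :=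
  segment ℝ (p i0) (t.pos p) ∪ carrier p t

/-- the hull of the terminals -/
def Hu (p : Fin n → E d) : Set (E d) := convexHull ℝ (range p)

/-- networks for all terminals -/
def Val (i0 : Fin n) (t : BT (Fin n) (E d)) : Prop := t.ok ∧ t.lv = Finset.univ.erase i0

/-- minimal networks with nodes in the hull -/
structure Mn (p : Fin n → E d) (i0 : Fin n) (t : BT (Fin n) (E d)) : Prop where
  val : Val i0 t
  mem : ∀ z ∈ t.nodes, z ∈ Hu p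
  le : ∀ t', Val i0 t' → tot p i0 dist t ≤ tot p i0 dist t'

open scoped Classical in
/-- number of nodes of norm `< 1 / 2` -/
noncomputable def nin (t : BT (Fin n) (E d)) : ℝ := t.nsum fun z => if ‖z‖ < 1 / 2 then 1 else 0

/-- the coordinates -/
noncomputable def co (p : Fin n → E d) (y : E d) (k : Fin n) : ℝ := max (inner ℝ y (p k) - e0) 0
/-- the field -/
noncomputable def XX (p : Fin n → E d) (y : E d) : E d := ∑ k, FF (co p y k) • p k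
noncomputable def sT (p : Fin n → E d) (y : E d) : ℝ := ∑ k, Th (co p y k)
noncomputable def EE (p : Fin n → E d) (a b : E d) : ℝ :=
  ‖a - b‖ + inner ℝ (a - b) (XX p a - XX p b) / ‖a - b‖
noncomputable def TE (p : Fin n → E d) (a b : E d) : ℝ := 2 * ∑ k, |Th (co p a k) - Th (co p b k)|
noncomputable def SL (p : Fin n → E d) (a b : E d) : ℝ := EE p a b - TE p a b

/-! ## Copies of the rows of LG (`tm d` replaced by `p`, `Fin d` by `Fin n`) -/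

/-- (CHN) copy of LG CHN -/
def LX_CHN : Prop := ∀ (d n : ℕ) (η s : ℝ) (U : Set (E d)), Chain η U s →
  ∀ (p : Fin n → E d) (S : Finset (Fin n)), S.Nonempty → (∀ i ∈ S, p i ∈ U) → ∀ y ∈ U,
  ∃ t : BT (Fin n) (E d), t.ok ∧ t.lv = S ∧
    dist y (t.pos p) + t.esum p dist ≤ s + ((S.card : ℝ) - 1) * η

/-- (LOW) copy of LG LOW -/
def LX_LOW : Prop := LX_CHN → ∀ (d n : ℕ) (p : Fin n → E d) (i0 : Fin n), 2 ≤ n → ∀ T : Set (E d),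
  IsClosed T → IsConnected (T ∪ range p) → ∀ L : ℝ, (∀ t, Val i0 t → L ≤ tot p i0 dist t) →
  ENNReal.ofReal L ≤ μH[1] T

/-- (PRJ) copy of LG PRJ: the projection onto the compact convex set `Hu p` -/
def LX_PRJ : Prop := ∀ (d n : ℕ) (p : Fin n → E d) (i0 : Fin n) (t : BT (Fin n) (E d)), Val i0 t →
  ∃ t', Val i0 t' ∧ (∀ z ∈ t'.nodes, z ∈ Hu p) ∧ tot p i0 dist t' ≤ tot p i0 dist t

/-- (CMP) copy of LG CMP (`Set.Finite.isCompact_convexHull`) -/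
def LX_CMP : Prop := ∀ (d n : ℕ) (p : Fin n → E d) (i0 : Fin n), 2 ≤ n →
  ∃ t : BT (Fin n) (E d), Val i0 t ∧ (∀ z ∈ t.nodes, z ∈ Hu p) ∧
  ∀ t', Val i0 t' → (∀ z ∈ t'.nodes, z ∈ Hu p) → tot p i0 dist t ≤ tot p i0 dist t'

/-- (ADM) copy of LG ADM: a minimal network is an admissible configuration -/
def LX_ADM : Prop := (∀ (d n : ℕ) (p : Fin n → E d) (i0 : Fin n), 2 ≤ n → ∀ T : Set (E d),
  IsClosed T → IsConnected (T ∪ range p) → ∀ L : ℝ, (∀ t, Val i0 t → L ≤ tot p i0 dist t) →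
  ENNReal.ofReal L ≤ μH[1] T) → ∀ (d n : ℕ) (p : Fin n → E d) (i0 : Fin n), 2 ≤ d → 2 ≤ n →
  (∀ i, ‖p i‖ = 1) → ∀ t, Mn p i0 t →
  Admissible (range p) (tset p i0 t) 0 1 ∧ μH[1] (tset p i0 t) = ENNReal.ofReal (tot p i0 dist t)

/-- (CNT) copy of LG CNT -/
def LX_CNT : Prop := ∀ (d n : ℕ) (p : Fin n → E d) (i0 : Fin n), 2 ≤ d → 2 ≤ n →
  (∀ i, ‖p i‖ = 1) → ∀ t, Mn p i0 t → Admissible (range p) (tset p i0 t) 0 1 →
  μH[1] (tset p i0 t) = ENNReal.ofReal (tot p i0 dist t) →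
  ∀ m : ℕ, (m : ℝ) ≤ nin t → (m : ℕ∞) ≤ N d (1 / 2)

/-- (VAR) copy of LG VAR -/
def LX_VAR : Prop := ∀ (d n : ℕ) (p : Fin n → E d) (i0 : Fin n) (t : BT (Fin n) (E d)), Mn p i0 t →
  ∀ D : E d → E d, (∀ i, D (p i) = 0) →
  0 ≤ tot p i0 (fun a b => inner ℝ (a - b) (D a - D b) / ‖a - b‖) t

/-- (TV) copy of LG TV -/
def LX_TV : Prop := ∀ (d n : ℕ) (p : Fin n → E d) (i0 : Fin n) (t : BT (Fin n) (E d)), Val i0 t →
  ∀ (u : E d → ℝ) (j : Fin n), (∀ i, i ≠ j → u (p i) = 0) →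
  u (p j) + t.nsum u ≤ tot p i0 (fun a b => |u a - u b|) t

/-! ## The new rows -/

/-- (COO) the coordinates. With `v = ∑ lam k • p k` (`lam k ≥ 0`, `∑ lam k = 1`):
`|⟪v, p k⟫ - lam k| ≤ e0 (1 - lam k)`, so `co p v k ≤ lam k (1 - e0) ≤ lam k ≤ co p v k + 2 e0`;
`‖v‖ ^ 2 = ∑ lam k ⟪v, p k⟫` lies between `∑ lam k (co k - e0)` and `∑ lam k (co k + e0)` -/
def LX_COO : Prop := ∀ (d n : ℕ) (p : Fin n → E d), NO p →
  (∀ i, co p (p i) i = 1 - e0 ∧ ∀ k, k ≠ i → co p (p i) k = 0) ∧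
  ∀ v ∈ Hu p, ‖v‖ ≤ 1 ∧ (∀ k, 0 ≤ co p v k) ∧ ∑ k, co p v k ≤ 1 ∧ (∀ k, co p v k ≤ 1 - e0) ∧
    (∀ k, |inner ℝ v (p k) - co p v k| ≤ e0) ∧
    (∀ k, co p v k ≠ 0 → inner ℝ v (p k) = co p v k + e0) ∧
    ∑ k, co p v k ^ 2 - e0 ≤ ‖v‖ ^ 2 ∧ ‖v‖ ^ 2 ≤ ∑ k, co p v k ^ 2 + 3 * e0

/-- (ED) per coordinate `2 |Θ x - Θ y| ≤ ℓ (x + y) / 2 + (x - y) (F x - F y) / ℓ` (as LG ED) for
`x = co p a k`, `y = co p b k`; `x - y` and `⟪a - b, p k⟫`: `x ↦ max (x - e0) 0` is monotone and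
1-Lipschitz, `F` is monotone on `[0, ∞)`; `∑ x ≤ 1`, `∑ y ≤ 1` by COO -/
def LX_ED : Prop := LX_COO → ∀ (d n : ℕ) (p : Fin n → E d), NO p → ∀ a ∈ Hu p, ∀ b ∈ Hu p,
  TE p a b ≤ EE p a b

/-- (LFR) robust form of LG LF: numbers only (`a` = coordinate `j`, `x k` = the other coordinates,
`l` = the length of the edge). As LG LF: `q = ∑ x k ^ 2`, `∑ x k ^ 3 ≥ q² / (1 - a)` if all
`x k ≤ 1 / 2`; the minimum for `η = 0` is `.0975`. -/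
def LX_LFR : Prop := ∀ (m : ℕ) (a : ℝ) (x : Fin m → ℝ) (l : ℝ), 0 ≤ a → a ≤ 1 → (∀ k, 0 ≤ x k) →
  a + ∑ k, x k ≤ 1 → 1 / 4 - 1 / 100000 ≤ a ^ 2 + ∑ k, x k ^ 2 → 0 < l →
  |l ^ 2 - ((1 - a) ^ 2 + ∑ k, x k ^ 2)| ≤ 1 / 100000 →
  72 / 1000 ≤ l + ((1 - a) * (7 / 8 - FF a) + ∑ k, x k * FF (x k)) / l - 2 * (5 / 8 - Th a) -
    2 * ∑ k, Th (x k) + (Th a + ∑ k, Th (x k) - 1 / 4)

/-- (LF) from LFR and COO: with `a = co p v j`, the other coordinates `x k` (re-indexed),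
`l = ‖v - p j‖`: `⟪v - p j, p j⟫ = ⟪v, p j⟫ - 1 ≤ a + e0 - 1`, and for `k ≠ j`
`⟪v - p j, p k⟫ FF (co k) ≥ co k * FF (co k)`; `FF (1 - e0) ≥ 7 / 8 - e0`; the errors are
`≤ 2 e0 / l + 2 e0`. If `l < 1 / 100`: `⟪v, p j⟫ ≥ 99 / 100`, so `a ≥ 98 / 100`, `sT ≥ Θ a`,
and `SL ≥ 0` by ED -/
def LX_LF : Prop := LX_COO → LX_ED → LX_LFR → ∀ (d n : ℕ) (p : Fin n → E d), NO p → ∀ v ∈ Hu p,
  1 / 2 ≤ ‖v‖ → ∀ j : Fin n, 7 / 100 ≤ SL p v (p j) + (sT p v - 1 / 4)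

/-- (UP) copy of LG UP: the same trees; the lengths change by `O(e0)`:
`‖∑ c i • p i‖ ^ 2 ≤ ∑ c i ^ 2 + e0 (∑ |c i|) ^ 2` -/
def LX_UP : Prop := ∀ (d n : ℕ) (p : Fin n → E d), NO p → ∀ i0 : Fin n, 2 ≤ n → ∃ t, Val i0 t ∧
  tot p i0 dist t ≤ 9545 / 10000 * n + 2 / 10

/-- (SUM) as LG SUM: `D y = FF (1 - e0) • y - XX p y`; `tot EE ≤ 15 / 8 L`;
`tot TE ≥ 2 n Θ(1 - e0) + 2 nsum sT`; nodes of norm `≥ 1 / 2`: `sT ≥ 1 / 4 - 3 e0` -/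
def LX_SUM : Prop := LX_VAR → LX_TV → LX_COO → LX_ED →
  (∀ (d n : ℕ) (p : Fin n → E d), NO p → ∀ v ∈ Hu p,
    1 / 2 ≤ ‖v‖ → ∀ j : Fin n, 7 / 100 ≤ SL p v (p j) + (sT p v - 1 / 4)) →
  LX_UP → ∀ (d n : ℕ) (p : Fin n → E d), NO p → ∀ i0 : Fin n, 3 ≤ n → ∀ t, Mn p i0 t →
  3 / 100 * n - 15 / 10 ≤ 65 / 100 * nin t

/-- (GV) exponentially many almost orthonormal vectors: `p = x / √d` with `x` in a maximal subset
`Q` of `{1, -1} ^ d` with `|∑ x i * y i| ≤ e0 d` for `x ≠ y`. Every `x` is close to some `y ∈ Q`, so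
`2 ^ d ≤ card Q * card {z | e0 d < |∑ z i|} ≤ card Q * 2 * 2 ^ d * exp (-e0 ^ 2 d / 2)`
(Markov for `exp (e0 * ∑ z i)`, `cosh x ≤ exp (x ^ 2 / 2)`: `Real.cosh_le_exp_half_sq`) -/
def LX_GV : Prop := ∀ d : ℕ, 1 ≤ d → ∃ (n : ℕ) (p : Fin n → E d), NO p ∧
  Real.exp (e0 ^ 2 / 2 * d) / 2 ≤ n

/-- (FIN) from SUM, GV, PRJ, CMP, ADM, CNT, LOW and `two_le_N'` (small `d`) -/
def LX_FIN : Prop := ∃ c : ℝ, 0 < c ∧ ∀ d : ℕ, 2 ≤ d → ∀ t : ℝ, 1 / 2 ≤ t → ∃ m : ℕ,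
  Real.exp (c * d) ≤ m ∧ (m : ℕ∞) ≤ N d t

end LX
end H11ST
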