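import Pool.Agent.Helper50.LX.CHN
import Pool.Agent.Helper36.LX.LOW
import Pool.Agent.Helper78.LX.PRJ
import Pool.Agent.Helper80.LX.CMP
import Pool.Agent.Helper74.LX.ADM
import Pool.Agent.Helper94.LG.LXCNT
import Pool.Agent.Helper24.LG.EX_CNT1
import Pool.Agent.Helper49.LG.EX_CNT2
import Pool.Agent.Helper49.LG.EX_CNT3
import Pool.Agent.Helper85.LG.EX_CNT5
import Pool.Agent.Helper88.LX.VAR
import Pool.Agent.Helper12.LX.TV
import Pool.Agent.Helper55.LX.COO
import Pool.Agent.Helper95.LX.ED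
import Pool.Agent.Helper45.LX.LFR
import Pool.Agent.Helper27.LX.LF
import Pool.Agent.Helper22.LX.UP
import Pool.Agent.Helper53.LX.SUM
import Pool.Agent.Helper11.LX.Gv
import Pool.Agent.Helper66.LX.FIN

/-!
# LX: `N_d(t) ≥ exp (c d)` for all `d ≥ 2`, `t ≥ 1 / 2`
-/

namespace H11ST
namespace LX

theorem cnt : LX_CNT := cnt_of' LG.ex_cnt1 LG.ex_cnt2 LG.ex_cnt3 LG.ex_cnt5

/-- exponential growth in the dimension -/
theorem low_all : LX_FIN := fin chn low prj cmp adm cnt var tv coo ed lfr lf up sum gv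

end LX
end H11ST
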