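import Pool.Agent.Helper49.ST.Upper
open MeasureTheory Metric Set Filter Topology
open scoped ENNReal NNReal

/-!
# LX, part 2: `N_d(t) ≤ (C d / (1 - t)) ^ ((d + 1) / 2)`, `C` absolute

The upper bound with the dependence on the dimension, so `N_d(1 / 2) ≤ exp (C d log d)`. As
H11ST/Dbl.lean and Helper49/ST/Upper.lean, but with an explicit net (UNET) and `d` doublings of the
length for one doubling of `K`.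
-/

namespace H11ST
namespace LX

/-- (UNET) as `ST_NET` (Helper49/ST/Net.lean: `Net.vol`, `exists_net`). `N` = a maximal
`ρ / K`-separated subset of `P`: `card N ≤ (1 + 2 K) ^ d ≤ (3 K) ^ d`; `D` = the radii to the points
of `N` and the segments from the points of `P` to the nearest point of `N` -/
def LX_UNET : Prop := ∀ d : ℕ, 1 ≤ d → ∀ (x : E d) (ρ : ℝ), 0 < ρ → ∀ K : ℕ, 1 ≤ K →
  ∀ P : Finset (E d), (∀ p ∈ P, p ∈ sphere x ρ) → ∃ (D : Set (E d)) (c : ℝ), Star x ρ D c ∧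
  (∀ p ∈ P, p ∈ D) ∧ c ≤ ρ * ((3 * K : ℝ) ^ d + P.card / K)

/-- (USTEP) For `ρ ≥ a` and `L(ρ) = len S x ρ ≥ 2 r (3 K) ^ d` UNET (as in `many` of Dbl.lean) gives
at least `K L(ρ) / (2 r)` points on the sphere, so by `GIat` with `m = ⌈K L(a') / (2 r)⌉` and
`b' ^ 2 = a' ^ 2 + 12 r ^ 2 / K ^ 2`: `L(b') ≥ 2 L(a')`. `d` such steps. -/
def LX_USTEP : Prop := LX_UNET → ∀ d : ℕ, 2 ≤ d → ∀ (A S : Set (E d)) (x : E d) (r : ℝ),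
  LocAdm A S x r → IsClosed A → GIat S x r → ∀ a : ℝ, 0 < a →
  (∀ ρ, a ≤ ρ → ρ < r → (S ∩ sphere x ρ).Nonempty) → ∀ K : ℕ, 1 ≤ K →
  2 * r * (3 * K : ℝ) ^ d ≤ len S x a → ∀ b : ℝ, 0 < b →
  b ^ 2 = a ^ 2 + 12 * d * r ^ 2 / K ^ 2 → b < r → 2 * r * (3 * (2 * K : ℝ)) ^ d ≤ len S x b

/-- (UBD) otherwise USTEP for `2 ^ i K`, `a_i ^ 2 = a ^ 2 + 16 d r ^ 2 / K ^ 2 (1 - 4 ^ -i)` gives
`len S x r = ∞` (as `step` of Dbl.lean) -/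
def LX_UBD : Prop := (∀ d : ℕ, 2 ≤ d → ∀ (A S : Set (E d)) (x : E d) (r : ℝ),
  LocAdm A S x r → IsClosed A → GIat S x r → ∀ a : ℝ, 0 < a →
  (∀ ρ, a ≤ ρ → ρ < r → (S ∩ sphere x ρ).Nonempty) → ∀ K : ℕ, 1 ≤ K →
  2 * r * (3 * K : ℝ) ^ d ≤ len S x a → ∀ b : ℝ, 0 < b →
  b ^ 2 = a ^ 2 + 12 * d * r ^ 2 / K ^ 2 → b < r → 2 * r * (3 * (2 * K : ℝ)) ^ d ≤ len S x b) →
  ∀ d : ℕ, 2 ≤ d → ∀ (A S : Set (E d)) (x : E d) (r : ℝ),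
  LocAdm A S x r → IsClosed A → GIat S x r → ∀ a : ℝ, 0 < a → a < r →
  (∀ ρ, a ≤ ρ → ρ < r → (S ∩ sphere x ρ).Nonempty) → ∀ K : ℕ, 1 ≤ K →
  16 * d * r ^ 2 / K ^ 2 < r ^ 2 - a ^ 2 → len S x a < 2 * r * (3 * K : ℝ) ^ d

/-- (UFIN) as `Upper.one`, `upper`: `a = (1 + t) / 2 * r`,
`K = ⌊√(64 d / (3 (1 - t)))⌋ + 1 ≤ 5.4 √(d / (1 - t))`, `card Y ≤ 4 (3 K) ^ d / √(1 - t)`;
`C = 4624` -/
def LX_UFIN : Prop := (∀ d : ℕ, 2 ≤ d → ∀ (A S : Set (E d)) (x : E d) (r : ℝ),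
  LocAdm A S x r → IsClosed A → GIat S x r → ∀ a : ℝ, 0 < a → a < r →
  (∀ ρ, a ≤ ρ → ρ < r → (S ∩ sphere x ρ).Nonempty) → ∀ K : ℕ, 1 ≤ K →
  16 * d * r ^ 2 / K ^ 2 < r ^ 2 - a ^ 2 → len S x a < 2 * r * (3 * K : ℝ) ^ d) →
  ∃ C : ℝ, 0 < C ∧ ∀ d : ℕ, 2 ≤ d → ∀ t : ℝ, 0 < t → t < 1 → ∃ m : ℕ, Nloc d t = m ∧
    (m : ℝ) ≤ (C * d / (1 - t)) ^ (((d : ℝ) + 1) / 2)

end LX
end H11ST
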