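import Pool.Agent.Helper36.LX.Sheet2
open MeasureTheory Metric Set Filter Topology
open scoped ENNReal NNReal

/-! Row UBD of LX: the length is bounded. -/

namespace H11ST
namespace LX

theorem ubd : LX_UBD := by
  intro hstep d hd A S x r L hA G a ha har hne K hK hKa
  have hr : 0 < r := ha.trans har
  have hmono : ∀ u v : ℝ, u ≤ v → v ≤ r → len S x u ≤ len S x v := by
    intro u v h1 h2
    exact ENNReal.toReal_mono (L.len_fin h2) (measure_mono (inter_subset_inter_right _
      (ball_subset_ball h1)))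
  by_contra hcon
  push Not at hcon
  have hKpos : (0 : ℝ) < K := by exact_mod_cast hK
  have hdpos : (0 : ℝ) < d := by exact_mod_cast (by omega : 0 < d)
  set X := 16 * d * r ^ 2 / (K : ℝ) ^ 2 with hX
  have hX0 : 0 < X := by positivity
  set w : ℕ → ℝ := fun j => a ^ 2 + X * (1 - (1 / 4) ^ j) with hw
  have hw0 : ∀ j, a ^ 2 ≤ w j := by
    intro j
    have : ((1 : ℝ) / 4) ^ j ≤ 1 := pow_le_one₀ (by norm_num) (by norm_num)
    rw [hw]; simp only
    nlinarith
  have hwr : ∀ j, w j < r ^ 2 := by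
    intro j
    have : 0 < ((1 : ℝ) / 4) ^ j := by positivity
    rw [hw]; simp only
    nlinarith
  have hb0 : ∀ j, a ≤ √(w j) := fun j => Real.le_sqrt_of_sq_le (hw0 j)
  have hbr : ∀ j, √(w j) < r := by
    intro j
    rw [Real.sqrt_lt' hr]; exact hwr j
  have step : ∀ j : ℕ, 2 * r * (3 * ((2 ^ j * K : ℕ) : ℝ)) ^ d ≤ len S x (√(w j)) := by
    intro j
    induction j with
    | zero =>
      have : w 0 = a ^ 2 := by rw [hw]; simp
      rw [this, Real.sqrt_sq ha.le]
      simpa using hcon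
    | succ j ih =>
      have hww : w (j + 1) - w j = X * (3 / 4) * (1 / 4) ^ j := by
        rw [hw]; simp only [pow_succ]; ring
      have h1 := hstep d hd A S x r L hA G (√(w j)) (ha.trans_le (hb0 j))
        (fun ρ h1 h2 => hne ρ ((hb0 j).trans h1) h2) (2 ^ j * K)
        (Nat.mul_pos (by positivity) hK) ih (√(w (j + 1))) (ha.trans_le (hb0 _)) (by
          rw [Real.sq_sqrt ((sq_nonneg a).trans (hw0 _)),
            Real.sq_sqrt ((sq_nonneg a).trans (hw0 _))]
          have e2 : ((1 : ℝ) / 4) ^ j = 1 / ((2 : ℝ) ^ j) ^ 2 := by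
            rw [← pow_mul, mul_comm j 2, pow_mul, div_pow, one_pow]; norm_num
          have e3 : w (j + 1) = w j + X * (3 / 4) * (1 / 4) ^ j := by linarith
          rw [e3, e2, hX]
          push_cast
          field_simp
          ring) (hbr _)
      have e4 : (((2 ^ (j + 1) * K : ℕ) : ℝ)) = 2 * ((2 ^ j * K : ℕ) : ℝ) := by
        push_cast; ring
      rw [e4]; exact h1
  -- contradiction with finiteness
  set M := len S x r with hM
  obtain ⟨j, hj⟩ := exists_nat_gt (M / (2 * r))
  have h1 := (step j).trans (hmono _ _ (hbr j).le le_rfl)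
  rw [div_lt_iff₀ (by positivity)] at hj
  have h2 : (j : ℝ) ≤ (3 * ((2 ^ j * K : ℕ) : ℝ)) ^ d := by
    have h3 : j ≤ 3 * (2 ^ j * K) :=
      (Nat.lt_two_pow_self).le.trans ((Nat.le_mul_of_pos_right _ hK).trans (by omega))
    have h4 : 3 * (2 ^ j * K) ≤ (3 * (2 ^ j * K)) ^ d := Nat.le_self_pow (by omega) _
    exact_mod_cast h3.trans h4
  have h5 : (j : ℝ) * (2 * r) ≤ 2 * r * (3 * ((2 ^ j * K : ℕ) : ℝ)) ^ d := by
    rw [mul_comm]; exact mul_le_mul_of_nonneg_left h2 (by positivity)
  linarith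

end LX
end H11ST
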